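import Mathlib

/-!
# A ray is `κ`-Morse if and only if its `κ`-lower divergence is superlinear

(MP_395cce_al, Q1.) Let `b` be a geodesic ray in a geodesic metric space.

If `b` is `κ`-Morse: a path of length at most `C R` from `b (t - R)` to `b (t + R)` which avoids the
ball of radius `R = r κ(t)` around `b t` gives a quasi-geodesic which avoids the ball of radius
`R / 2`: a chain which almost minimises the length, where the length inside the ball counts with
the factor `C + 1`. For large `r` such a quasi-geodesic leaves the `κ`-neighbourhood of `b`.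

If the `κ`-lower divergence of `b` is superlinear: let `β` be a quasi-geodesic with endpoints on `b`
which leaves a large `κ`-neighbourhood of `b`. Take a point of maximal distance `H` from `b` among
the points of `β` outside of this neighbourhood and follow `β` from this point in both directions,
until it is close to `b` or for the time `L H`. The endpoints of this piece of `β` have projections
to `b` which are far from each other, and we get a detour of length `C R` around a ball of radius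
`R = c H` centred on `b`.
-/

set_option autoImplicit false

namespace Pool.Agent.Results.MP_395cce_al.MorseIffSuperlinear

open Set Metric Filter Topology

variable {X : Type*} [MetricSpace X]

/-- Any two points of `X` are joined by a geodesic segment. -/
def GeodesicSpace (X : Type*) [MetricSpace X] : Prop := ∀ x y : X, ∃ γ : ℝ → X, γ 0 = x ∧
  γ (dist x y) = y ∧ ∀ s ∈ Icc 0 (dist x y), ∀ t ∈ Icc 0 (dist x y), dist (γ s) (γ t) = |s - t|

/-- `b : [0, ∞) → X` is a geodesic ray (the values of `b` at negative numbers play no role). -/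
def IsRay (b : ℝ → X) : Prop := ∀ s, 0 ≤ s → ∀ t, 0 ≤ t → dist (b s) (b t) = |s - t|

/-- `β : [s, t] → X` is a `(q, Q)`-quasi-geodesic. -/
def IsQuasiGeodesic (q Q s t : ℝ) (β : ℝ → X) : Prop := ∀ u ∈ Icc s t, ∀ v ∈ Icc s t,
  |u - v| / q - Q ≤ dist (β u) (β v) ∧ dist (β u) (β v) ≤ q * |u - v| + Q

/-- The ray `b` is `κ`-Morse: there is a function `m` such that every `(q, Q)`-quasi-geodesic `β`
with endpoints on `b` lies in the neighbourhood `{x | d(x, b) ≤ m(q, Q) κ(‖x‖)}` of `b`, where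
`‖x‖ = d(b(0), x)`. -/
def KappaMorse (κ : ℝ → ℝ) (b : ℝ → X) : Prop := ∃ m : ℝ → ℝ → ℝ, ∀ q Q : ℝ, 1 ≤ q → 0 ≤ Q →
  0 ≤ m q Q ∧ ∀ (s t : ℝ) (β : ℝ → X), s ≤ t → IsQuasiGeodesic q Q s t β →
    β s ∈ b '' Ici 0 → β t ∈ b '' Ici 0 →
    ∀ u ∈ Icc s t, infDist (β u) (b '' Ici 0) ≤ m q Q * κ (dist (b 0) (β u))

/-- `ρ_κ(r, t)`: the infimum of the lengths of the paths from `b(t - r κ(t))` to `b(t + r κ(t))`
which avoid the open ball of radius `r κ(t)` around `b(t)` (`∞` if there are none). -/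
noncomputable def rho (κ : ℝ → ℝ) (b : ℝ → X) (r t : ℝ) : ENNReal :=
  ⨅ γ : {γ : ℝ → X // ContinuousOn γ (Icc 0 1) ∧ γ 0 = b (t - r * κ t) ∧ γ 1 = b (t + r * κ t) ∧
    ∀ s ∈ Icc (0 : ℝ) 1, γ s ∉ ball (b t) (r * κ t)}, eVariationOn γ.1 (Icc 0 1)

/-- The `κ`-lower divergence of `b`: the infimum of `ρ_κ(r, t) / κ(t)` for `t > r κ(t)`. -/
noncomputable def lowerDiv (κ : ℝ → ℝ) (b : ℝ → X) (r : ℝ) : ENNReal :=
  ⨅ t : {t : ℝ // 0 ≤ t ∧ r * κ t < t}, rho κ b r t / ENNReal.ofReal (κ t)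

/-- The `κ`-lower divergence is superlinear: `div_κ(r) / r → ∞` for `r → ∞`. -/
def Superlinear (κ : ℝ → ℝ) (b : ℝ → X) : Prop :=
  Tendsto (fun r : ℝ => lowerDiv κ b r / ENNReal.ofReal r) atTop (𝓝 ⊤)

/-! ## Detours -/

/-- There is a path of length at most `ℓ` from `x` to `y` at distance at least `R` from `c`. -/
def Reach (c : X) (R : ℝ) (x y : X) (ℓ : ℝ) : Prop := 0 ≤ ℓ ∧ ∃ γ : ℝ → X, γ 0 = x ∧ γ ℓ = y ∧
  (∀ s ∈ Icc 0 ℓ, ∀ t ∈ Icc 0 ℓ, dist (γ s) (γ t) ≤ |s - t|) ∧ ∀ s ∈ Icc 0 ℓ, R ≤ dist (γ s) c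

theorem Reach.refl {c : X} {R : ℝ} {x : X} (h : R ≤ dist x c) : Reach c R x x 0 := by
  refine ⟨le_rfl, fun _ => x, rfl, rfl, fun s _ t _ => ?_, fun s _ => h⟩
  rw [dist_self]
  exact abs_nonneg _

theorem Reach.trans {c : X} {R : ℝ} {x y z : X} {ℓ ℓ' : ℝ} (h : Reach c R x y ℓ)
    (h' : Reach c R y z ℓ') : Reach c R x z (ℓ + ℓ') := by
  obtain ⟨h0, γ, g1, g2, g3, g4⟩ := h
  obtain ⟨h0', γ', g1', g2', g3', g4'⟩ := h'
  have key : ∀ s ∈ Icc (0 : ℝ) (ℓ + ℓ'), ∀ t ∈ Icc (0 : ℝ) (ℓ + ℓ'), s ≤ t →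
      dist ((fun s => if s ≤ ℓ then γ s else γ' (s - ℓ)) s)
        ((fun s => if s ≤ ℓ then γ s else γ' (s - ℓ)) t) ≤ t - s := by
    intro s hs t ht hst
    simp only
    by_cases h1 : t ≤ ℓ
    · rw [if_pos (hst.trans h1), if_pos h1]
      have := g3 s ⟨hs.1, hst.trans h1⟩ t ⟨ht.1, h1⟩
      rwa [abs_sub_comm, abs_of_nonneg (by linarith)] at this
    · push Not at h1
      rw [if_neg (not_le.2 h1)]
      by_cases h2 : s ≤ ℓ
      · rw [if_pos h2]
        have e1 := g3 s ⟨hs.1, h2⟩ ℓ ⟨h0, le_rfl⟩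
        have e2 := g3' 0 ⟨le_rfl, h0'⟩ (t - ℓ) ⟨by linarith, by linarith [ht.2]⟩
        rw [abs_sub_comm, abs_of_nonneg (by linarith)] at e1 e2
        rw [g2, ← g1'] at e1
        have := dist_triangle (γ s) (γ' 0) (γ' (t - ℓ))
        linarith
      · push Not at h2
        rw [if_neg (not_le.2 h2)]
        have e2 := g3' (s - ℓ) ⟨by linarith, by linarith [hs.2]⟩ (t - ℓ)
          ⟨by linarith, by linarith [ht.2]⟩
        rw [abs_sub_comm, abs_of_nonneg (by linarith)] at e2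
        linarith
  refine ⟨by linarith, fun s => if s ≤ ℓ then γ s else γ' (s - ℓ), ?_, ?_, ?_, ?_⟩
  · simp only [if_pos h0, g1]
  · simp only
    by_cases h1 : ℓ + ℓ' ≤ ℓ
    · have h2 : ℓ' = 0 := by linarith
      rw [if_pos h1, h2, add_zero, g2, ← g2', h2, g1']
    · rw [if_neg h1, add_sub_cancel_left, g2']
  · intro s hs t ht
    rcases le_total s t with hst | hst
    · rw [abs_sub_comm, abs_of_nonneg (by linarith)]
      exact key s hs t ht hst
    · rw [abs_of_nonneg (by linarith), dist_comm]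
      exact key t ht s hs hst
  · intro s hs
    simp only
    by_cases h1 : s ≤ ℓ
    · rw [if_pos h1]
      exact g4 s ⟨hs.1, h1⟩
    · rw [if_neg h1]
      push Not at h1
      exact g4' _ ⟨by linarith, by linarith [hs.2]⟩

theorem Reach.symm {c : X} {R : ℝ} {x y : X} {ℓ : ℝ} (h : Reach c R x y ℓ) :
    Reach c R y x ℓ := by
  obtain ⟨h0, γ, g1, g2, g3, g4⟩ := h
  refine ⟨h0, fun s => γ (ℓ - s), by simp [g2], by simp [g1], fun s hs t ht => ?_, fun s hs => ?_⟩
  · have := g3 (ℓ - s) ⟨by linarith [hs.2], by linarith [hs.1]⟩ (ℓ - t)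
      ⟨by linarith [ht.2], by linarith [ht.1]⟩
    rwa [sub_sub_sub_cancel_left, abs_sub_comm] at this
  · exact g4 _ ⟨by linarith [hs.2], by linarith [hs.1]⟩

theorem Reach.step (hX : GeodesicSpace X) {c : X} {R : ℝ} {x y : X}
    (h : R + dist x y ≤ dist x c ∨ R + dist x y ≤ dist y c) : Reach c R x y (dist x y) := by
  obtain ⟨γ, g1, g2, g3⟩ := hX x y
  refine ⟨dist_nonneg, γ, g1, g2, fun s hs t ht => (g3 s hs t ht).le, fun s hs => ?_⟩
  rcases h with h | h
  · have e1 := g3 0 ⟨le_rfl, dist_nonneg⟩ s hs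
    rw [g1, zero_sub, abs_neg, abs_of_nonneg hs.1] at e1
    have := dist_triangle x (γ s) c
    linarith [hs.2]
  · have e1 := g3 (dist x y) ⟨dist_nonneg, le_rfl⟩ s hs
    rw [g2, abs_of_nonneg (by linarith [hs.2])] at e1
    have := dist_triangle y (γ s) c
    linarith [hs.1]

theorem Reach.path {c : X} {R : ℝ} {x y : X} {ℓ : ℝ} (h : Reach c R x y ℓ) :
    ∃ γ : ℝ → X, ContinuousOn γ (Icc 0 1) ∧ γ 0 = x ∧ γ 1 = y ∧
      (∀ s ∈ Icc (0 : ℝ) 1, γ s ∉ ball c R) ∧ eVariationOn γ (Icc 0 1) ≤ ENNReal.ofReal ℓ := by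
  obtain ⟨h0, γ, g1, g2, g3, g4⟩ := h
  have hm : ∀ s ∈ Icc (0 : ℝ) 1, ℓ * s ∈ Icc 0 ℓ := fun s hs =>
    ⟨mul_nonneg h0 hs.1, mul_le_of_le_one_right h0 hs.2⟩
  have hL : LipschitzOnWith ℓ.toNNReal (fun s => γ (ℓ * s)) (Icc (0 : ℝ) 1) := by
    refine LipschitzOnWith.of_dist_le_mul fun s hs t ht => ?_
    refine (g3 _ (hm s hs) _ (hm t ht)).trans ?_
    rw [Real.coe_toNNReal _ h0, ← mul_sub, abs_mul, abs_of_nonneg h0, Real.dist_eq]
  refine ⟨fun s => γ (ℓ * s), hL.continuousOn, by simp [g1], by simp [g2], fun s hs => ?_, ?_⟩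
  · rw [mem_ball, not_lt]
    exact g4 _ (hm s hs)
  · have h1 := hL.comp_eVariationOn_le (g := fun s : ℝ => s) (s := Icc (0 : ℝ) 1)
      (fun s hs => hs)
    have h2 : eVariationOn (fun s : ℝ => s) (Icc (0 : ℝ) 1) ≤ 1 := by
      have h3 : MonotoneOn (fun s : ℝ => s) (Icc (0 : ℝ) 1) := fun _ _ _ _ h => h
      have h4 := h3.eVariationOn_eq (a := 0) (b := 1) (by simp) (by simp)
      simpa using h4.le
    calc eVariationOn (fun s => γ (ℓ * s)) (Icc 0 1)
        ≤ ℓ.toNNReal * eVariationOn (fun s : ℝ => s) (Icc (0 : ℝ) 1) := h1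
      _ ≤ ℓ.toNNReal * 1 := by gcongr
      _ = ENNReal.ofReal ℓ := by rw [mul_one]; rfl

/-- Detours are long if the lower divergence is superlinear. -/
theorem Superlinear.reach {κ : ℝ → ℝ} {b : ℝ → X} (hκ : ∀ t, 0 ≤ t → 1 ≤ κ t)
    (h : Superlinear κ b) (C : ℝ) (hC : 0 ≤ C) : ∃ r₀ : ℝ, 0 < r₀ ∧ ∀ r, r₀ ≤ r → ∀ t, 0 ≤ t →
      r * κ t < t → ∀ ℓ, Reach (b t) (r * κ t) (b (t - r * κ t)) (b (t + r * κ t)) ℓ →
        C * (r * κ t) < ℓ := by
  have h1 : ∀ᶠ r : ℝ in atTop, ENNReal.ofReal C < lowerDiv κ b r / ENNReal.ofReal r :=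
    h.eventually (lt_mem_nhds ENNReal.ofReal_lt_top)
  obtain ⟨r₁, hr₁⟩ := eventually_atTop.1 h1
  refine ⟨max r₁ 1, by positivity, fun r hr t ht hrt ℓ hℓ => ?_⟩
  have hr1 : 1 ≤ r := (le_max_right _ _).trans hr
  have h2 := hr₁ r ((le_max_left _ _).trans hr)
  have hr0 : 0 < r := by linarith
  have hk : 1 ≤ κ t := hκ t ht
  have hk0 : 0 < κ t := by linarith
  have h3 : ENNReal.ofReal C * ENNReal.ofReal r < lowerDiv κ b r := by
    rwa [ENNReal.lt_div_iff_mul_lt] at h2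
    · left; simpa using hr0
    · left; exact ENNReal.ofReal_ne_top
  have h4 : lowerDiv κ b r ≤ rho κ b r t / ENNReal.ofReal (κ t) :=
    iInf_le (fun t : {t : ℝ // 0 ≤ t ∧ r * κ t < t} => rho κ b r t / ENNReal.ofReal (κ t))
      ⟨t, ht, hrt⟩
  have h5 := h3.trans_le h4
  have h6 : ENNReal.ofReal C * ENNReal.ofReal r * ENNReal.ofReal (κ t) < rho κ b r t := by
    rwa [ENNReal.lt_div_iff_mul_lt] at h5
    · left; simpa using hk0
    · left; exact ENNReal.ofReal_ne_top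
  obtain ⟨γ, c1, c2, c3, c4, c5⟩ := hℓ.path
  have h7 : rho κ b r t ≤ eVariationOn γ (Icc 0 1) :=
    iInf_le (fun γ : {γ : ℝ → X // ContinuousOn γ (Icc 0 1) ∧ γ 0 = b (t - r * κ t) ∧
      γ 1 = b (t + r * κ t) ∧ ∀ s ∈ Icc (0 : ℝ) 1, γ s ∉ ball (b t) (r * κ t)} =>
      eVariationOn γ.1 (Icc 0 1)) ⟨γ, c1, c2, c3, c4⟩
  have h8 := (h6.trans_le h7).trans_le c5
  rw [mul_assoc, ← ENNReal.ofReal_mul hr0.le, ← ENNReal.ofReal_mul hC] at h8
  exact (ENNReal.ofReal_lt_ofReal_iff_of_nonneg (by positivity)).1 h8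

/-! ## Superlinear lower divergence implies the Morse property -/

/-- `κ` is quasi-monotone and doubling. -/
def Doubling (κ : ℝ → ℝ) (A : ℝ) : Prop := ∀ s s' l : ℝ, 0 ≤ s → 0 ≤ s' → 1 ≤ l → s' ≤ l * s →
  κ s' ≤ A * l * κ s

theorem chain_reach (hX : GeodesicSpace X) {c : X} {R e : ℝ} {y : ℕ → X} {a : ℕ}
    (ha : R ≤ dist (y a) c) : ∀ k : ℕ, (∀ i, a ≤ i → i < a + k → dist (y i) (y (i + 1)) ≤ e ∧
      (R + e ≤ dist (y i) c ∨ R + e ≤ dist (y (i + 1)) c)) →
      ∃ ℓ ≤ k * e, Reach c R (y a) (y (a + k)) ℓ := by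
  intro k
  induction k with
  | zero => intro _; exact ⟨0, by simp, Reach.refl ha⟩
  | succ k ih =>
    intro h
    obtain ⟨ℓ, h1, h2⟩ := ih fun i hi hik => h i hi (by omega)
    obtain ⟨h3, h4⟩ := h (a + k) (by omega) (by omega)
    refine ⟨ℓ + dist (y (a + k)) (y (a + k + 1)), by push_cast; linarith, h2.trans ?_⟩
    rw [← add_assoc a k 1]
    refine Reach.step hX ?_
    rcases h4 with h4 | h4
    · left; linarith
    · right; linarith

theorem two_sided (hX : GeodesicSpace X) {b : ℝ → X} (hb : IsRay b) {u v R ℓ : ℝ} (hu : 0 ≤ u)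
    (huv : u ≤ v) (hR : 0 ≤ R) (hR2 : 2 * R ≤ v - u)
    (h : Reach (b ((u + v) / 2)) R (b u) (b v) ℓ) :
    Reach (b ((u + v) / 2)) R (b ((u + v) / 2 - R)) (b ((u + v) / 2 + R))
      (ℓ + ((v - u) - 2 * R)) := by
  set t := (u + v) / 2 with ht
  have h1 : dist (b (t - R)) (b u) = (v - u) / 2 - R := by
    rw [hb _ (by linarith) _ hu, abs_of_nonneg (by linarith)]
    linarith
  have h2 : dist (b v) (b (t + R)) = (v - u) / 2 - R := by
    rw [hb _ (by linarith) _ (by linarith), abs_of_nonneg (by linarith)]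
    linarith
  have h3 : dist (b u) (b t) = (v - u) / 2 := by
    rw [hb _ hu _ (by linarith), abs_sub_comm, abs_of_nonneg (by linarith)]
    linarith
  have h4 : dist (b v) (b t) = (v - u) / 2 := by
    rw [hb _ (by linarith) _ (by linarith), abs_of_nonneg (by linarith)]
    linarith
  have e1 : Reach (b t) R (b (t - R)) (b u) (dist (b (t - R)) (b u)) :=
    Reach.step hX (Or.inr (by rw [h1, h3]; linarith))
  have e2 : Reach (b t) R (b v) (b (t + R)) (dist (b v) (b (t + R))) :=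
    Reach.step hX (Or.inl (by rw [h2, h4]; linarith))
  have e3 := (e1.trans h).trans e2
  rw [h1, h2] at e3
  convert e3 using 1
  ring

theorem right_end {h : ℕ → ℝ} {θ : ℝ} {j N W : ℕ} (hW : 1 ≤ W) (hjN : j ≤ N) (hj : θ < h j)
    (hN : h N ≤ θ) : ∃ k : ℕ, 1 ≤ k ∧ j + k ≤ N ∧ k ≤ W ∧ (h (j + k) ≤ θ ∨ k = W) ∧
      ∀ i, j ≤ i → i < j + k → θ < h i := by
  classical
  have hjlt : j < N := by
    rcases Nat.lt_or_ge j N with h1 | h1
    · exact h1
    · have : j = N := by omega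
      rw [this] at hj
      exact absurd hN (not_le.2 hj)
  have hex : ∃ k : ℕ, 1 ≤ k ∧ (h (j + k) ≤ θ ∨ k = W) :=
    ⟨N - j, by omega, Or.inl (by rwa [show j + (N - j) = N by omega])⟩
  obtain ⟨h1, h2⟩ := Nat.find_spec hex
  refine ⟨Nat.find hex, h1, ?_, Nat.find_min' hex ⟨hW, Or.inr rfl⟩, h2, ?_⟩
  · have := Nat.find_min' hex ⟨(by omega : 1 ≤ N - j), Or.inl (by
      rwa [show j + (N - j) = N by omega])⟩
    omega
  · intro i hi1 hi2
    rcases Nat.eq_or_lt_of_le hi1 with h3 | h3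
    · rwa [← h3]
    · have := Nat.find_min hex (m := i - j) (by omega)
      push Not at this
      have h4 := (this (by omega)).1
      rwa [show j + (i - j) = i by omega] at h4

theorem left_end {h : ℕ → ℝ} {θ : ℝ} {j W : ℕ} (hW : 1 ≤ W) (hj : θ < h j)
    (h0 : h 0 ≤ θ) : ∃ k : ℕ, 1 ≤ k ∧ k ≤ j ∧ k ≤ W ∧ (h (j - k) ≤ θ ∨ k = W) ∧
      ∀ i, j - k < i → i ≤ j → θ < h i := by
  classical
  have hj0 : 0 < j := by
    rcases Nat.eq_zero_or_pos j with h1 | h1
    · rw [h1] at hj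
      exact absurd h0 (not_le.2 hj)
    · exact h1
  have hex : ∃ k : ℕ, 1 ≤ k ∧ (h (j - k) ≤ θ ∨ k = W) :=
    ⟨j, hj0, Or.inl (by rwa [Nat.sub_self])⟩
  obtain ⟨h1, h2⟩ := Nat.find_spec hex
  refine ⟨Nat.find hex, h1, ?_, Nat.find_min' hex ⟨hW, Or.inr rfl⟩, h2, ?_⟩
  · exact Nat.find_min' hex ⟨hj0, Or.inl (by rwa [Nat.sub_self])⟩
  · intro i hi1 hi2
    rcases Nat.eq_or_lt_of_le hi2 with h3 | h3
    · rwa [h3]
    · have := Nat.find_min hex (m := j - i) (by omega)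
      push Not at this
      have h4 := (this (by omega)).1
      rwa [show j - (j - i) = i by omega] at h4

/-- The distance of the projections of the endpoints of the piece. -/
theorem separation {q Q G L δ H D Va Vb W n₁ n₂ Δ : ℝ} (hq : 1 ≤ q) (hQ : 0 ≤ Q) (hG : 3 ≤ G)
    (hL : L = 16 * q * G) (hδ : 16 * δ * q ^ 2 = 1) (hδ0 : 0 < δ) (hδ16 : 16 * δ ≤ 1)
    (hδH : 2 * (q + Q) ≤ δ * H) (hH : 32 * (1 + Q) ≤ H) (hW : L * H ≤ W) (hn₁ : 0 ≤ n₁)
    (hn₂ : 0 ≤ n₂) (hD : (n₁ + n₂) / q - (Q + 1) ≤ D) (hΔ : D - Va - Vb ≤ Δ)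
    (ha : Va ≤ G * H + 1) (hb : Vb ≤ G * H + 1)
    (h1 : (Va ≤ δ * H + 1 ∧ (1 - δ) * H ≤ q * n₁ + Q) ∨ n₁ = W)
    (h2 : (Vb ≤ δ * H + 1 ∧ (1 - δ) * H ≤ q * n₂ + Q) ∨ n₂ = W) :
    16 * (δ * H) ≤ Δ ∧ 8 * Va ≤ Δ ∧ 8 * Vb ≤ Δ := by
  have hH0 : 0 < H := by linarith
  have hqpos : 0 < q := by linarith
  have hGH : 3 * H ≤ G * H := mul_le_mul_of_nonneg_right hG hH0.le
  have hδH' : 16 * (δ * H) ≤ H := by nlinarith
  have case2 : W ≤ n₁ + n₂ → 16 * (δ * H) ≤ Δ ∧ 8 * Va ≤ Δ ∧ 8 * Vb ≤ Δ := by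
    intro h
    have e1 : 16 * (G * H) ≤ (n₁ + n₂) / q := by
      rw [le_div_iff₀ hqpos]
      calc 16 * (G * H) * q = L * H := by rw [hL]; ring
        _ ≤ n₁ + n₂ := hW.trans h
    refine ⟨?_, ?_, ?_⟩ <;> linarith
  rcases h1 with ⟨h1a, h1b⟩ | h1
  · rcases h2 with ⟨h2a, h2b⟩ | h2
    · have e1 : 32 * δ * ((1 - δ) * H) - 32 * δ * Q ≤ (n₁ + n₂) / q := by
        rw [le_div_iff₀ hqpos]
        have e2 : 2 * ((1 - δ) * H) - 2 * Q ≤ q * (n₁ + n₂) := by linarith
        have e3 : (32 * δ * ((1 - δ) * H) - 32 * δ * Q) * q ^ 2 ≤ (n₁ + n₂) * q := by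
          calc (32 * δ * ((1 - δ) * H) - 32 * δ * Q) * q ^ 2
              = (16 * δ * q ^ 2) * (2 * ((1 - δ) * H) - 2 * Q) := by ring
            _ = 2 * ((1 - δ) * H) - 2 * Q := by rw [hδ, one_mul]
            _ ≤ (n₁ + n₂) * q := by linarith
        have e4 : (32 * δ * ((1 - δ) * H) - 32 * δ * Q) * q * q ≤ (n₁ + n₂) * q := by
          calc _ = (32 * δ * ((1 - δ) * H) - 32 * δ * Q) * q ^ 2 := by ring
            _ ≤ _ := e3
        exact le_of_mul_le_mul_right e4 hqpos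
      have e5 : 32 * δ * Q ≤ 2 * Q := by nlinarith
      have e6 : 30 * (δ * H) ≤ 32 * δ * ((1 - δ) * H) := by nlinarith [mul_pos hδ0 hH0]
      refine ⟨?_, ?_, ?_⟩ <;> linarith
    · exact case2 (by linarith)
  · exact case2 (by linarith)

theorem window_height {κ : ℝ → ℝ} {A : ℝ} (hA : 1 ≤ A) (hD : Doubling κ A)
    {G C₂ r₁ M₀ H T Ti hi : ℝ} (hG : G = 2 * A + 1) (hC₂ : 0 < C₂) (hr₁ : 0 < r₁)
    (hsub : ∀ x, M₀ ≤ x → r₁ * (A * κ (2 * C₂ * x)) ≤ x) (hM : M₀ ≤ H) (hH : 0 < H) (hT : 0 ≤ T)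
    (hTi0 : 0 ≤ Ti) (hjr : r₁ * κ T ≤ H) (hTi : Ti ≤ T + C₂ * H) (hlt : G * H < hi) :
    M₀ ≤ hi ∧ r₁ * κ Ti ≤ hi := by
  have hG1 : 3 ≤ G := by linarith
  have hHi : H ≤ hi := by nlinarith
  refine ⟨hM.trans hHi, ?_⟩
  rcases le_total (C₂ * H) T with h | h
  · have e1 := hD T Ti 2 hT hTi0 one_le_two (by linarith)
    have e2 : r₁ * κ Ti ≤ A * 2 * (r₁ * κ T) := by
      calc r₁ * κ Ti ≤ r₁ * (A * 2 * κ T) := mul_le_mul_of_nonneg_left e1 hr₁.le
        _ = A * 2 * (r₁ * κ T) := by ring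
    have e3 : A * 2 * (r₁ * κ T) ≤ A * 2 * H := mul_le_mul_of_nonneg_left hjr (by linarith)
    have e4 : A * 2 * H ≤ G * H := mul_le_mul_of_nonneg_right (by linarith) hH.le
    linarith
  · have e0 : C₂ * H ≤ C₂ * hi := mul_le_mul_of_nonneg_left hHi hC₂.le
    have e1 := hD (2 * C₂ * hi) Ti 1 (by nlinarith) hTi0 le_rfl (by linarith)
    have e2 := hsub hi (hM.trans hHi)
    rw [mul_one] at e1
    exact (mul_le_mul_of_nonneg_left e1 hr₁.le).trans e2

/-- A detour around a ball centred at the midpoint of the projections of the endpoints. -/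
theorem detour (hX : GeodesicSpace X) {b : ℝ → X} (hb : IsRay b) {y : ℕ → X} {a k : ℕ}
    {R e u v : ℝ} (hk : 2 ≤ k) (hR : 0 < R)
    (hstep : ∀ i, a ≤ i → i < a + k → dist (y i) (y (i + 1)) ≤ e)
    (hint : ∀ i, a < i → i < a + k → R + e ≤ infDist (y i) (b '' Ici 0))
    (hu : 0 ≤ u) (hv : 0 ≤ v) (h1 : R + dist (y a) (b u) ≤ |u - v| / 2)
    (h2 : R + dist (y (a + k)) (b v) ≤ |u - v| / 2) :
    ∃ ℓ ≤ |u - v| + dist (y a) (b u) + dist (y (a + k)) (b v) + k * e,
      Reach (b ((u + v) / 2)) R (b ((u + v) / 2 - R)) (b ((u + v) / 2 + R)) ℓ := by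
  set c := b ((u + v) / 2) with hc
  have hint' : ∀ i, a < i → i < a + k → R + e ≤ dist (y i) c := fun i hi1 hi2 =>
    (hint i hi1 hi2).trans (infDist_le_dist_of_mem ⟨(u + v) / 2, by simp; linarith, rfl⟩)
  have huc : dist (b u) c = |u - v| / 2 := by
    rw [hc, hb _ hu _ (by linarith), show u - (u + v) / 2 = (u - v) / 2 by ring, abs_div,
      abs_two]
  have hvc : dist (b v) c = |u - v| / 2 := by
    rw [hc, hb _ hv _ (by linarith), show v - (u + v) / 2 = -((u - v) / 2) by ring, abs_neg,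
      abs_div, abs_two]
  have hya : R ≤ dist (y a) c := by
    have := dist_triangle_left (b u) c (y a)
    linarith
  obtain ⟨ℓ, hℓ, hP⟩ := chain_reach hX (c := c) (R := R) (e := e) (y := y) (a := a) hya k (by
    intro i hi1 hi2
    refine ⟨hstep i hi1 hi2, ?_⟩
    rcases Nat.eq_or_lt_of_le hi1 with h | h
    · right
      exact hint' (i + 1) (by omega) (by omega)
    · left
      exact hint' i h hi2)
  have e1 : Reach c R (b u) (y a) (dist (b u) (y a)) :=
    Reach.step hX (Or.inl (by rw [huc, dist_comm (b u)]; exact h1))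
  have e2 : Reach c R (y (a + k)) (b v) (dist (y (a + k)) (b v)) :=
    Reach.step hX (Or.inr (by rw [hvc]; exact h2))
  have e3 := (e1.trans hP).trans e2
  have hR2 : 2 * R ≤ |u - v| := by
    have : 0 ≤ dist (y a) (b u) := dist_nonneg
    linarith
  rw [dist_comm (b u)] at e3
  rcases le_total u v with huv | huv
  · rw [abs_sub_comm, abs_of_nonneg (by linarith)] at hR2 ⊢
    exact ⟨_, by linarith, two_sided hX hb hu huv hR.le hR2 e3⟩
  · rw [abs_of_nonneg (by linarith)] at hR2 ⊢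
    rw [hc, add_comm u v] at e3 ⊢
    exact ⟨_, by linarith, two_sided hX hb hv huv hR.le hR2 e3.symm⟩

theorem no_excursion (hX : GeodesicSpace X) {κ : ℝ → ℝ} {b : ℝ → X} (hb : IsRay b)
    (hκ : ∀ t, 0 ≤ t → 1 ≤ κ t) {A : ℝ} (hA : 1 ≤ A) (hD : Doubling κ A) {q Q : ℝ} (hq : 1 ≤ q)
    (hQ : 0 ≤ Q) {G L δ C₂ C₃ C₄ C₅ C₁ r₀ r₁ M₀ : ℝ} (hG : G = 2 * A + 1) (hL : L = 16 * q * G)
    (hδ : 16 * δ * q ^ 2 = 1) (hC₂ : C₂ = q * (L + 1) + Q) (hC₃ : C₃ = 2 * (2 * C₂))
    (hC₄ : C₄ = C₂ + C₃) (hC₅ : C₅ = 2 * C₃ + 2 * (L + 1) * (q + Q)) (hC₁ : δ * C₁ = 2 * C₅)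
    (hr₀ : 0 < r₀) (hr₁ : δ * r₁ = 2 * r₀ * (A * (1 + C₄)))
    (hreach : ∀ r, r₀ ≤ r → ∀ t, 0 ≤ t → r * κ t < t → ∀ ℓ,
      Reach (b t) (r * κ t) (b (t - r * κ t)) (b (t + r * κ t)) ℓ → C₁ * (r * κ t) < ℓ)
    (hM : 2 * (q + Q) ≤ δ * M₀) (hsub : ∀ x, M₀ ≤ x → r₁ * (A * κ (2 * C₂ * x)) ≤ x)
    {y : ℕ → X} {N : ℕ}
    (hy1 : ∀ i j, i ≤ j → j ≤ N → dist (y i) (y j) ≤ q * ((j : ℝ) - i) + Q)
    (hy2 : ∀ i j, i ≤ j → j ≤ N → ((j : ℝ) - i) / q - (Q + 1) ≤ dist (y i) (y j))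
    (h0 : infDist (y 0) (b '' Ici 0) = 0) (hN : infDist (y N) (b '' Ici 0) = 0) :
    ∀ i ≤ N, ¬ (M₀ ≤ infDist (y i) (b '' Ici 0) ∧
      r₁ * κ (dist (b 0) (y i)) ≤ infDist (y i) (b '' Ici 0)) := by
  classical
  by_contra hcon
  push Not at hcon
  set Z : Set X := b '' Ici 0 with hZ
  have hZne : Z.Nonempty := ⟨b 0, 0, by simp, rfl⟩
  -- constants
  have hq0 : 0 < q := by linarith
  have hq2 : 1 ≤ q ^ 2 := one_le_pow₀ hq
  have hδ0 : 0 < δ := by
    have h1 : 0 < δ * q ^ 2 := by linarith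
    exact pos_of_mul_pos_left h1 (by positivity)
  have hδ16 : 16 * δ ≤ 1 := by
    have : 16 * δ * 1 ≤ 16 * δ * q ^ 2 := mul_le_mul_of_nonneg_left hq2 (by positivity)
    linarith
  have hG3 : 3 ≤ G := by linarith
  have hG0 : 0 < G := by linarith
  have hL0 : 0 < L := by rw [hL]; positivity
  have hC₂0 : 0 < C₂ := by rw [hC₂]; positivity
  have hC₃0 : 0 < C₃ := by rw [hC₃]; positivity
  have hC₄0 : 0 < C₄ := by rw [hC₄]; positivity
  have hr₁0 : 0 < r₁ := by
    have h1 : 0 < δ * r₁ := by rw [hr₁]; positivity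
    exact pos_of_mul_pos_right h1 hδ0.le
  -- the point of maximal height
  let S : Finset ℕ := (Finset.range (N + 1)).filter fun i => M₀ ≤ infDist (y i) Z ∧
    r₁ * κ (dist (b 0) (y i)) ≤ infDist (y i) Z
  have hSne : S.Nonempty := by
    obtain ⟨i, hi, h1, h2⟩ := hcon
    exact ⟨i, by simp only [S, Finset.mem_filter, Finset.mem_range]; exact ⟨by omega, h1, h2⟩⟩
  obtain ⟨j, hjS, hjmax⟩ := Finset.exists_max_image S (fun i => infDist (y i) Z) hSne
  simp only [S, Finset.mem_filter, Finset.mem_range] at hjS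
  obtain ⟨hjN', hjM, hjr⟩ := hjS
  have hjN : j ≤ N := by omega
  obtain ⟨H, hH⟩ : ∃ H : ℝ, H = infDist (y j) Z := ⟨_, rfl⟩
  obtain ⟨T, hT⟩ : ∃ T : ℝ, T = dist (b 0) (y j) := ⟨_, rfl⟩
  rw [← hH] at hjM hjr
  rw [← hT] at hjr
  have hT0 : 0 ≤ T := by rw [hT]; exact dist_nonneg
  have hδH : 2 * (q + Q) ≤ δ * H := hM.trans (mul_le_mul_of_nonneg_left hjM hδ0.le)
  have hH0 : 0 < H := by
    have : 0 < δ * H := by linarith
    exact pos_of_mul_pos_right this hδ0.le
  have hδH' : 16 * (δ * H) ≤ H := by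
    have := mul_le_mul_of_nonneg_right hδ16 hH0.le
    linarith
  have hH32 : 32 * (1 + Q) ≤ H := by linarith
  have hHT : H ≤ T := by
    rw [hH, hT, dist_comm]
    exact infDist_le_dist_of_mem ⟨0, by simp, rfl⟩
  have hlip : ∀ i k, infDist (y i) Z ≤ infDist (y k) Z + dist (y i) (y k) := fun i k =>
    infDist_le_infDist_add_dist
  -- the window
  obtain ⟨W, hW⟩ : ∃ W : ℕ, W = ⌈L * H⌉₊ := ⟨_, rfl⟩
  have hLH0 : 0 < L * H := mul_pos hL0 hH0
  have hW1 : L * H ≤ W := by rw [hW]; exact Nat.le_ceil _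
  have hW2 : (W : ℝ) ≤ (L + 1) * H := by
    have := Nat.ceil_lt_add_one hLH0.le
    rw [← hW] at this
    linarith
  have hWpos : 1 ≤ W := by
    rw [Nat.one_le_iff_ne_zero]
    intro h
    rw [h] at hW1
    push_cast at hW1
    linarith
  have hqW : q * W + Q ≤ C₂ * H := by
    have e1 : q * W ≤ q * ((L + 1) * H) := mul_le_mul_of_nonneg_left hW2 hq0.le
    have e2 : Q * 1 ≤ Q * H := mul_le_mul_of_nonneg_left (by linarith) hQ
    rw [hC₂]
    linarith
  -- the heights in the window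
  have hwin : ∀ i ≤ N, dist (y j) (y i) ≤ C₂ * H → infDist (y i) Z ≤ G * H := by
    intro i hiN hd
    by_contra hlt
    push Not at hlt
    have hTi : dist (b 0) (y i) ≤ T + C₂ * H := (dist_triangle _ (y j) _).trans (by
      rw [← hT]; linarith)
    obtain ⟨h1, h2⟩ := window_height hA hD hG hC₂0 hr₁0 hsub hjM hH0 hT0 dist_nonneg hjr hTi hlt
    have hmem : i ∈ S := by
      simp only [S, Finset.mem_filter, Finset.mem_range]
      exact ⟨by omega, h1, h2⟩
    have h3 := hjmax i hmem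
    rw [← hH] at h3
    have : 3 * H ≤ G * H := mul_le_mul_of_nonneg_right hG3 hH0.le
    linarith
  obtain ⟨k₂, hk₂1, hk₂2, hk₂3, hk₂4, hk₂5⟩ := right_end (h := fun i => infDist (y i) Z)
    (θ := δ * H) hWpos hjN (by rw [← hH]; linarith) (by rw [hN]; positivity)
  obtain ⟨k₁, hk₁1, hk₁2, hk₁3, hk₁4, hk₁5⟩ := left_end (h := fun i => infDist (y i) Z)
    (θ := δ * H) (j := j) hWpos (by rw [← hH]; linarith)
    (by rw [h0]; positivity)
  obtain ⟨a, ha⟩ : ∃ a, a = j - k₁ := ⟨_, rfl⟩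
  have hak : a + k₁ = j := by omega
  have hkW₁ : (k₁ : ℝ) ≤ W := by exact_mod_cast hk₁3
  have hkW₂ : (k₂ : ℝ) ≤ W := by exact_mod_cast hk₂3
  have hda : dist (y a) (y j) ≤ q * k₁ + Q := by
    have e1 := hy1 a j (by omega) hjN
    have e2 : ((j : ℝ) - a) = k₁ := by rw [← hak]; push_cast; ring
    rwa [e2] at e1
  have hdb : dist (y j) (y (j + k₂)) ≤ q * k₂ + Q := by
    have e1 := hy1 j (j + k₂) (by omega) hk₂2
    have e2 : (((j + k₂ : ℕ) : ℝ) - j) = k₂ := by push_cast; ring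
    rwa [e2] at e1
  have hda' : dist (y a) (y j) ≤ C₂ * H := by
    have : q * k₁ ≤ q * W := mul_le_mul_of_nonneg_left hkW₁ hq0.le
    linarith
  have hdb' : dist (y j) (y (j + k₂)) ≤ C₂ * H := by
    have : q * k₂ ≤ q * W := mul_le_mul_of_nonneg_left hkW₂ hq0.le
    linarith
  -- projections
  obtain ⟨_, ⟨u, hu, rfl⟩, hua⟩ := (infDist_lt_iff hZne).1
    (lt_add_one (infDist (y a) Z))
  obtain ⟨_, ⟨v, hv, rfl⟩, hvb⟩ := (infDist_lt_iff hZne).1
    (lt_add_one (infDist (y (j + k₂)) Z))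
  rw [mem_Ici] at hu hv
  obtain ⟨Va, hVa⟩ : ∃ V : ℝ, V = dist (y a) (b u) := ⟨_, rfl⟩
  obtain ⟨Vb, hVb⟩ : ∃ V : ℝ, V = dist (y (j + k₂)) (b v) := ⟨_, rfl⟩
  obtain ⟨D, hDd⟩ : ∃ D : ℝ, D = dist (y a) (y (j + k₂)) := ⟨_, rfl⟩
  obtain ⟨Δ, hΔd⟩ : ∃ Δ : ℝ, Δ = |u - v| := ⟨_, rfl⟩
  have hΔ1 : D - Va - Vb ≤ Δ := by
    rw [hDd, hVa, hVb, hΔd, ← hb u hu v hv]
    have e1 := dist_triangle (y a) (b u) (y (j + k₂))
    have e2 := dist_triangle (b u) (b v) (y (j + k₂))
    rw [dist_comm (b v)] at e2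
    linarith
  have hΔ2 : Δ ≤ D + Va + Vb := by
    rw [hDd, hVa, hVb, hΔd, ← hb u hu v hv]
    have e1 := dist_triangle (b u) (y a) (b v)
    have e2 := dist_triangle (y a) (y (j + k₂)) (b v)
    rw [dist_comm (b u) (y a)] at e1
    linarith
  have hVaG : Va ≤ G * H + 1 := by
    have := hwin a (by omega) (by rw [dist_comm]; exact hda')
    rw [hVa]
    linarith
  have hVbG : Vb ≤ G * H + 1 := by
    have := hwin (j + k₂) hk₂2 hdb'
    rw [hVb]
    linarith
  have hDlow : ((k₁ : ℝ) + k₂) / q - (Q + 1) ≤ D := by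
    have e1 := hy2 a (j + k₂) (by omega) hk₂2
    have e2 : (((j + k₂ : ℕ) : ℝ) - a) = k₁ + k₂ := by rw [← hak]; push_cast; ring
    rwa [e2, ← hDd] at e1
  obtain ⟨hs1, hs2, hs3⟩ := separation hq hQ hG3 hL hδ hδ0 hδ16 hδH hH32 hW1
    (Nat.cast_nonneg k₁) (Nat.cast_nonneg k₂) hDlow hΔ1 hVaG hVbG
    (by
      rcases hk₁4 with h | h
      · left
        rw [← ha] at h
        refine ⟨by rw [hVa]; linarith, ?_⟩
        have e1 := hlip j a
        rw [← hH, dist_comm] at e1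
        linarith
      · right; rw [h])
    (by
      rcases hk₂4 with h | h
      · left
        refine ⟨by rw [hVb]; linarith, ?_⟩
        have e1 := hlip j (j + k₂)
        rw [← hH] at e1
        linarith
      · right; rw [h])
  have hVa0 : 0 ≤ Va := by rw [hVa]; exact dist_nonneg
  have hVb0 : 0 ≤ Vb := by rw [hVb]; exact dist_nonneg
  have hDup : D ≤ 2 * (C₂ * H) := by
    have := dist_triangle (y a) (y j) (y (j + k₂))
    rw [hDd]
    linarith
  have hΔup : Δ ≤ C₃ * H := by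
    rw [hC₃]
    linarith
  -- the detour
  obtain ⟨R, hR⟩ : ∃ R : ℝ, R = δ * H / 2 := ⟨_, rfl⟩
  have hR0 : 0 < R := by rw [hR]; linarith
  obtain ⟨ℓ, hℓ1, hℓ2⟩ := detour hX hb (y := y) (a := a) (k := k₁ + k₂) (R := R) (e := q + Q)
    (u := u) (v := v) (by omega) hR0
    (by
      intro i hi1 hi2
      have e1 := hy1 i (i + 1) (by omega) (by omega)
      have e2 : (((i + 1 : ℕ) : ℝ) - i) = 1 := by push_cast; ring
      rw [e2, mul_one] at e1
      exact e1)
    (by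
      intro i hi1 hi2
      have e1 : δ * H < infDist (y i) Z := by
        rcases le_total i j with h | h
        · exact hk₁5 i (by omega) h
        · exact hk₂5 i h (by omega)
      rw [hR]
      linarith)
    hu hv (by rw [← hVa, ← hΔd, hR]; linarith)
    (by rw [show a + (k₁ + k₂) = j + k₂ by omega, ← hVb, ← hΔd, hR]; linarith)
  rw [show a + (k₁ + k₂) = j + k₂ by omega, ← hVa, ← hVb, ← hΔd] at hℓ1
  -- the centre
  obtain ⟨t, ht⟩ : ∃ t : ℝ, t = (u + v) / 2 := ⟨_, rfl⟩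
  rw [← ht] at hℓ2
  have ht0 : 0 ≤ t := by rw [ht]; linarith
  have htR : R < t := by
    have e1 : |u - v| ≤ u + v := by rw [abs_le]; constructor <;> linarith
    rw [← hΔd] at e1
    rw [hR, ht]
    linarith
  have hut : u ≤ T + C₄ * H := by
    have e1 : dist (b 0) (b u) = u := by rw [hb 0 le_rfl u hu, zero_sub, abs_neg, abs_of_nonneg hu]
    have e2 := dist_triangle (b 0) (y j) (b u)
    have e3 := dist_triangle (y j) (y a) (b u)
    rw [dist_comm (y j) (y a)] at e3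
    rw [hC₄]
    linarith
  have hvt : v ≤ T + C₄ * H := by
    have e1 : dist (b 0) (b v) = v := by rw [hb 0 le_rfl v hv, zero_sub, abs_neg, abs_of_nonneg hv]
    have e2 := dist_triangle (b 0) (y j) (b v)
    have e3 := dist_triangle (y j) (y (j + k₂)) (b v)
    rw [hC₄]
    linarith
  have hκt : r₀ * κ t ≤ R := by
    have e0 : C₄ * H ≤ C₄ * T := mul_le_mul_of_nonneg_left hHT hC₄0.le
    have e1 := hD T t (1 + C₄) hT0 ht0 (by linarith) (by rw [ht]; linarith)
    have e2 : δ * r₁ * κ T ≤ δ * H := by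
      rw [mul_assoc]
      exact mul_le_mul_of_nonneg_left hjr hδ0.le
    have e3 : r₀ * κ t ≤ r₀ * (A * (1 + C₄) * κ T) := mul_le_mul_of_nonneg_left e1 hr₀.le
    rw [hr₁] at e2
    rw [hR]
    linarith
  have hκt1 := hκ t ht0
  have hκt0 : 0 < κ t := by linarith
  have hrκ : R / κ t * κ t = R := div_mul_cancel₀ _ hκt0.ne'
  have hfin := hreach (R / κ t) (by rwa [le_div_iff₀ hκt0]) t ht0 (by rwa [hrκ]) ℓ
    (by rwa [hrκ])
  rw [hrκ] at hfin
  have hk : ((k₁ + k₂ : ℕ) : ℝ) * (q + Q) ≤ 2 * (L + 1) * (q + Q) * H := by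
    have e1 : ((k₁ + k₂ : ℕ) : ℝ) ≤ 2 * ((L + 1) * H) := by push_cast; linarith
    have := mul_le_mul_of_nonneg_right e1 (by linarith : 0 ≤ q + Q)
    linarith
  have hC₁R : C₁ * R = C₅ * H := by
    rw [hR]
    calc C₁ * (δ * H / 2) = (δ * C₁) * H / 2 := by ring
      _ = C₅ * H := by rw [hC₁]; ring
  rw [hC₁R, hC₅] at hfin
  linarith

theorem superlinear_morse (hX : GeodesicSpace X) {κ : ℝ → ℝ} {b : ℝ → X} (hb : IsRay b)
    (hκ : ∀ t, 0 ≤ t → 1 ≤ κ t) (hκ' : Tendsto (fun t => κ t / t) atTop (𝓝 0)) {A : ℝ}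
    (hA : 1 ≤ A) (hD : Doubling κ A) (h : Superlinear κ b) : KappaMorse κ b := by
  have main : ∀ q Q : ℝ, 1 ≤ q → 0 ≤ Q → ∃ m : ℝ, 0 ≤ m ∧ ∀ (s t : ℝ) (β : ℝ → X), s ≤ t →
      IsQuasiGeodesic q Q s t β → β s ∈ b '' Ici 0 → β t ∈ b '' Ici 0 →
      ∀ u ∈ Icc s t, infDist (β u) (b '' Ici 0) ≤ m * κ (dist (b 0) (β u)) := by
    intro q Q hq hQ
    obtain ⟨G, hG⟩ : ∃ G : ℝ, G = 2 * A + 1 := ⟨_, rfl⟩
    obtain ⟨L, hL⟩ : ∃ L : ℝ, L = 16 * q * G := ⟨_, rfl⟩
    obtain ⟨δ, hδ'⟩ : ∃ δ : ℝ, δ = 1 / (16 * q ^ 2) := ⟨_, rfl⟩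
    have hq0 : 0 < q := by linarith
    have hδ0 : 0 < δ := by rw [hδ']; positivity
    have hδ : 16 * δ * q ^ 2 = 1 := by rw [hδ']; field_simp
    obtain ⟨C₂, hC₂⟩ : ∃ C : ℝ, C = q * (L + 1) + Q := ⟨_, rfl⟩
    obtain ⟨C₃, hC₃⟩ : ∃ C : ℝ, C = 2 * (2 * C₂) := ⟨_, rfl⟩
    obtain ⟨C₄, hC₄⟩ : ∃ C : ℝ, C = C₂ + C₃ := ⟨_, rfl⟩
    obtain ⟨C₅, hC₅⟩ : ∃ C : ℝ, C = 2 * C₃ + 2 * (L + 1) * (q + Q) := ⟨_, rfl⟩
    obtain ⟨C₁, hC₁'⟩ : ∃ C : ℝ, C = 2 * C₅ / δ := ⟨_, rfl⟩
    have hC₁ : δ * C₁ = 2 * C₅ := by rw [hC₁']; field_simp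
    have hG0 : 0 < G := by linarith
    have hL0 : 0 < L := by rw [hL]; positivity
    have hC₂0 : 0 < C₂ := by rw [hC₂]; positivity
    have hC₃0 : 0 < C₃ := by rw [hC₃]; positivity
    have hC₄0 : 0 < C₄ := by rw [hC₄]; positivity
    have hC₅0 : 0 < C₅ := by rw [hC₅]; positivity
    have hC₁0 : 0 < C₁ := by rw [hC₁']; positivity
    obtain ⟨r₀, hr₀, hreach⟩ := h.reach hκ C₁ hC₁0.le
    obtain ⟨r₁, hr₁'⟩ : ∃ r : ℝ, r = 2 * r₀ * (A * (1 + C₄)) / δ := ⟨_, rfl⟩
    have hr₁ : δ * r₁ = 2 * r₀ * (A * (1 + C₄)) := by rw [hr₁']; field_simp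
    have hr₁0 : 0 < r₁ := by rw [hr₁']; positivity
    have hε : 0 < 1 / (r₁ * (A * (2 * C₂))) := by positivity
    obtain ⟨t₀, ht₀⟩ := eventually_atTop.1 (hκ'.eventually (gt_mem_nhds hε))
    obtain ⟨M₀, hM₀⟩ : ∃ M : ℝ, M = max (max (t₀ / (2 * C₂)) (2 * (q + Q) / δ)) 1 := ⟨_, rfl⟩
    have hM1 : t₀ / (2 * C₂) ≤ M₀ := by
      rw [hM₀]; exact (le_max_left _ _).trans (le_max_left _ _)
    have hM2 : 2 * (q + Q) / δ ≤ M₀ := by
      rw [hM₀]; exact (le_max_right _ _).trans (le_max_left _ _)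
    have hM3 : 1 ≤ M₀ := by rw [hM₀]; exact le_max_right _ _
    have hM : 2 * (q + Q) ≤ δ * M₀ := by
      rw [div_le_iff₀ hδ0] at hM2
      linarith
    have hsub : ∀ x, M₀ ≤ x → r₁ * (A * κ (2 * C₂ * x)) ≤ x := by
      intro x hx
      have hx0 : 0 < x := by linarith
      have h1 : t₀ ≤ 2 * C₂ * x := by
        have := hM1.trans hx
        rw [div_le_iff₀ (by positivity)] at this
        linarith
      have h2 := ht₀ _ h1
      rw [div_lt_iff₀ (by positivity), one_div, ← div_eq_inv_mul, lt_div_iff₀ (by positivity)] at h2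
      have h3 : r₁ * (A * κ (2 * C₂ * x)) * (2 * C₂) ≤ x * (2 * C₂) := by
        calc r₁ * (A * κ (2 * C₂ * x)) * (2 * C₂) = κ (2 * C₂ * x) * (r₁ * (A * (2 * C₂))) := by
              ring
          _ ≤ 2 * C₂ * x := h2.le
          _ = x * (2 * C₂) := by ring
      exact le_of_mul_le_mul_right h3 (by positivity)
    obtain ⟨e, he⟩ : ∃ e : ℝ, e = q + Q := ⟨_, rfl⟩
    have he0 : 0 < e := by rw [he]; positivity
    have hκ1 : 1 ≤ κ 1 := hκ 1 zero_le_one
    refine ⟨(M₀ + r₁) * (A * (1 + e) * κ 1) + e, by positivity, ?_⟩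
    intro s t β hst hβ hs ht u hu
    -- sampling
    obtain ⟨N, hN⟩ : ∃ N : ℕ, N = ⌈t - s⌉₊ := ⟨_, rfl⟩
    have hNt : t ≤ s + N := by
      have := Nat.le_ceil (t - s)
      rw [← hN] at this
      linarith
    set p : ℕ → ℝ := fun i => min (s + i) t with hp
    have hps : ∀ i, p i ∈ Icc s t := fun i => ⟨le_min (by
      have : (0 : ℝ) ≤ i := Nat.cast_nonneg i
      linarith) hst, min_le_right _ _⟩
    have hp1 : ∀ i j : ℕ, i ≤ j → p j - p i ≤ (j : ℝ) - i ∧ 0 ≤ p j - p i := by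
      intro i j hij
      have hij' : (i : ℝ) ≤ j := by exact_mod_cast hij
      constructor
      · simp only [hp]
        rcases min_cases (s + (i : ℝ)) t with h1 | h1 <;> rcases min_cases (s + (j : ℝ)) t with
          h2 | h2 <;> rw [h1.1, h2.1] <;> linarith
      · simp only [hp]
        rw [sub_nonneg]
        exact min_le_min_right _ (by linarith)
    have hp2 : ∀ i j : ℕ, i ≤ j → j ≤ N → (j : ℝ) - i - 1 ≤ p j - p i := by
      intro i j hij hjN
      have hij' : (i : ℝ) ≤ j := by exact_mod_cast hij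
      have hj : (j : ℝ) ≤ t - s + 1 := by
        have h1 : (j : ℝ) ≤ N := by exact_mod_cast hjN
        have h2 := Nat.ceil_lt_add_one (by linarith : 0 ≤ t - s)
        rw [← hN] at h2
        linarith
      simp only [hp]
      rcases min_cases (s + (i : ℝ)) t with h1 | h1 <;> rcases min_cases (s + (j : ℝ)) t with
        h2 | h2 <;> rw [h1.1, h2.1] <;> linarith
    have hp0 : p 0 = s := by simp [hp, hst]
    have hpN : p N = t := by simp only [hp]; exact min_eq_right hNt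
    have hZ0 : ∀ x ∈ b '' Ici 0, infDist x (b '' Ici 0) = 0 := fun x hx => infDist_zero_of_mem hx
    have hno := no_excursion hX hb hκ hA hD hq hQ hG hL hδ hC₂ hC₃ hC₄ hC₅ hC₁ hr₀ hr₁ hreach hM
      hsub (y := fun i => β (p i)) (N := N)
      (by
        intro i j hij _
        obtain ⟨h1, h2⟩ := hp1 i j hij
        have h3 := (hβ _ (hps i) _ (hps j)).2
        rw [abs_sub_comm, abs_of_nonneg h2] at h3
        have := mul_le_mul_of_nonneg_left h1 hq0.le
        linarith)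
      (by
        intro i j hij hjN
        obtain ⟨h1, h2⟩ := hp1 i j hij
        have h3 := (hβ _ (hps i) _ (hps j)).1
        rw [abs_sub_comm, abs_of_nonneg h2] at h3
        have h4 := div_le_div_of_nonneg_right (hp2 i j hij hjN) hq0.le
        have h5 : ((j : ℝ) - i - 1) / q = ((j : ℝ) - i) / q - 1 / q := by ring
        have h6 : 1 / q ≤ 1 := by rw [div_le_one hq0]; exact hq
        linarith)
      (by simp only [hp0]; exact hZ0 _ hs) (by simp only [hpN]; exact hZ0 _ ht)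
    -- a sample point near `u`
    obtain ⟨i, hiN, hi⟩ : ∃ i ≤ N, |p i - u| ≤ 1 := by
      refine ⟨⌊u - s⌋₊, ?_, ?_⟩
      · have h1 : ⌊u - s⌋₊ ≤ ⌈t - s⌉₊ := (Nat.floor_le_floor (by linarith [hu.2])).trans
          (Nat.floor_le_ceil _)
        rwa [hN]
      · have h1 := Nat.floor_le (by linarith [hu.1] : 0 ≤ u - s)
        have h2 := Nat.lt_floor_add_one (u - s)
        have h3 : p ⌊u - s⌋₊ = s + (⌊u - s⌋₊ : ℝ) := min_eq_left (by linarith [hu.2])
        rw [h3, abs_le]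
        constructor <;> linarith
    have hd : dist (β u) (β (p i)) ≤ e := by
      have h1 := (hβ _ hu _ (hps i)).2
      rw [abs_sub_comm] at h1
      have := mul_le_mul_of_nonneg_left hi hq0.le
      rw [he]
      linarith
    have hT : 0 ≤ dist (b 0) (β u) := dist_nonneg
    have hκu : 1 ≤ κ (dist (b 0) (β u)) := hκ _ hT
    have hκi : κ (dist (b 0) (β (p i))) ≤ A * (1 + e) * κ 1 * κ (dist (b 0) (β u)) := by
      have h1 : dist (b 0) (β (p i)) ≤ dist (b 0) (β u) + e :=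
        (dist_triangle _ (β u) _).trans (by linarith)
      rcases le_total 1 (dist (b 0) (β u)) with h2 | h2
      · have h3 := hD (dist (b 0) (β u)) (dist (b 0) (β (p i))) (1 + e) hT dist_nonneg
          (by linarith) (by nlinarith)
        calc _ ≤ A * (1 + e) * κ (dist (b 0) (β u)) := h3
          _ = A * (1 + e) * 1 * κ (dist (b 0) (β u)) := by ring
          _ ≤ A * (1 + e) * κ 1 * κ (dist (b 0) (β u)) := by gcongr
      · have h3 := hD 1 (dist (b 0) (β (p i))) (1 + e) zero_le_one dist_nonneg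
          (by linarith) (by linarith)
        calc _ ≤ A * (1 + e) * κ 1 := h3
          _ = A * (1 + e) * κ 1 * 1 := by ring
          _ ≤ A * (1 + e) * κ 1 * κ (dist (b 0) (β u)) := by gcongr
    have hκi1 : 1 ≤ κ (dist (b 0) (β (p i))) := hκ _ dist_nonneg
    have hh : infDist (β (p i)) (b '' Ici 0) ≤ (M₀ + r₁) * κ (dist (b 0) (β (p i))) := by
      have h1 := hno i hiN
      simp only [not_and_or, not_le] at h1
      have h2 : M₀ * 1 ≤ M₀ * κ (dist (b 0) (β (p i))) :=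
        mul_le_mul_of_nonneg_left hκi1 (by linarith)
      have h3 : 0 ≤ r₁ * κ (dist (b 0) (β (p i))) := by positivity
      rcases h1 with h1 | h1 <;> linarith
    have h5 := infDist_le_infDist_add_dist (s := b '' Ici 0) (x := β u) (y := β (p i))
    calc infDist (β u) (b '' Ici 0) ≤ (M₀ + r₁) * κ (dist (b 0) (β (p i))) + e := by linarith
      _ ≤ (M₀ + r₁) * (A * (1 + e) * κ 1 * κ (dist (b 0) (β u))) +
          e * κ (dist (b 0) (β u)) := by
        have h6 : (M₀ + r₁) * κ (dist (b 0) (β (p i))) ≤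
            (M₀ + r₁) * (A * (1 + e) * κ 1 * κ (dist (b 0) (β u))) :=
          mul_le_mul_of_nonneg_left hκi (by positivity)
        have h7 : e * 1 ≤ e * κ (dist (b 0) (β u)) := mul_le_mul_of_nonneg_left hκu he0.le
        linarith
      _ = _ := by ring
  choose! m hm1 hm2 using main
  exact ⟨m, fun q Q hq hQ => ⟨hm1 q Q hq hQ, hm2 q Q hq hQ⟩⟩

/-! ## The Morse property implies superlinear lower divergence -/

open Classical in
/-- The weight of a step: `K` if it meets the ball, `1` otherwise. -/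
noncomputable def wt (c : X) (R K : ℝ) (x y : X) : ℝ := if dist x c < R ∨ dist y c < R then K else 1

theorem one_le_wt {c : X} {R K : ℝ} (hK : 1 ≤ K) (x y : X) : 1 ≤ wt c R K x y := by
  unfold wt; split_ifs; exacts [hK, le_rfl]

theorem wt_le {c : X} {R K : ℝ} (hK : 1 ≤ K) (x y : X) : wt c R K x y ≤ K := by
  unfold wt; split_ifs; exacts [le_rfl, hK]

/-- The cost of the first `k` steps of `z`. -/
noncomputable def cost (c : X) (R K : ℝ) (z : ℕ → X) (k : ℕ) : ℝ :=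
  ∑ i ∈ Finset.range k, wt c R K (z i) (z (i + 1)) * dist (z i) (z (i + 1))

/-- The length of the first `k` steps of `z`. -/
noncomputable def len (z : ℕ → X) (k : ℕ) : ℝ := ∑ i ∈ Finset.range k, dist (z i) (z (i + 1))

/-- There is a chain with steps of length at most one from `x` to `y` with cost `a`. -/
def Ch (c : X) (R K : ℝ) (x y : X) (a : ℝ) : Prop := ∃ (N : ℕ) (z : ℕ → X), z 0 = x ∧ z N = y ∧
  (∀ i < N, dist (z i) (z (i + 1)) ≤ 1) ∧ cost c R K z N = a

theorem Ch.trans {c : X} {R K : ℝ} {x y w : X} {a a' : ℝ} (h : Ch c R K x y a)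
    (h' : Ch c R K y w a') : Ch c R K x w (a + a') := by
  obtain ⟨N, z, h1, h2, h3, h4⟩ := h
  obtain ⟨N', z', h1', h2', h3', h4'⟩ := h'
  set f : ℕ → X := fun i => if i ≤ N then z i else z' (i - N) with hf
  have f1 : ∀ i ≤ N, f i = z i := fun i hi => by simp [hf, hi]
  have f2 : ∀ i, f (N + i) = z' i := by
    intro i
    rcases Nat.eq_zero_or_pos i with h | h
    · rw [h, add_zero, f1 N le_rfl, h2, h1']
    · simp only [hf]
      rw [if_neg (by omega), Nat.add_sub_cancel_left]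
  refine ⟨N + N', f, by rw [f1 0 (Nat.zero_le _), h1], by rw [f2, h2'], ?_, ?_⟩
  · intro i hi
    rcases Nat.lt_or_ge i N with h | h
    · rw [f1 i h.le, f1 (i + 1) h]
      exact h3 i h
    · obtain ⟨k, rfl⟩ := Nat.exists_eq_add_of_le h
      rw [f2, add_assoc, f2]
      exact h3' k (by omega)
  · unfold cost at *
    rw [Finset.sum_range_add, ← h4, ← h4']
    congr 1
    · refine Finset.sum_congr rfl fun i hi => ?_
      rw [Finset.mem_range] at hi
      rw [f1 i hi.le, f1 (i + 1) hi]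
    · refine Finset.sum_congr rfl fun i _ => ?_
      rw [f2, add_assoc, f2]

theorem Ch.sub {c : X} {R K : ℝ} {N : ℕ} {z : ℕ → X} (hz : ∀ i < N, dist (z i) (z (i + 1)) ≤ 1)
    {i j : ℕ} (hij : i ≤ j) (hj : j ≤ N) :
    Ch c R K (z i) (z j) (cost c R K z j - cost c R K z i) := by
  obtain ⟨k, rfl⟩ := Nat.exists_eq_add_of_le hij
  refine ⟨k, fun l => z (i + l), rfl, rfl, fun l hl => hz (i + l) (by omega), ?_⟩
  unfold cost
  rw [Finset.sum_range_add]
  simp only [add_assoc, add_sub_cancel_left]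

theorem Ch.geo (hX : GeodesicSpace X) {c : X} {R K : ℝ} (hK : 1 ≤ K) (x y : X) :
    ∃ a ≤ K * dist x y, Ch c R K x y a := by
  obtain ⟨γ, g1, g2, g3⟩ := hX x y
  set p : ℕ → ℝ := fun i => min (i : ℝ) (dist x y) with hp
  have hpm : ∀ i, p i ∈ Icc 0 (dist x y) := fun i =>
    ⟨le_min (Nat.cast_nonneg _) dist_nonneg, min_le_right _ _⟩
  have hp1 : ∀ i, 0 ≤ p (i + 1) - p i ∧ p (i + 1) - p i ≤ 1 := by
    intro i
    simp only [hp]
    push_cast
    rcases min_cases (i : ℝ) (dist x y) with h1 | h1 <;> rcases min_cases ((i : ℝ) + 1) (dist x y)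
      with h2 | h2 <;> rw [h1.1, h2.1] <;> constructor <;> linarith
  have hd : ∀ i, dist (γ (p i)) (γ (p (i + 1))) = p (i + 1) - p i := by
    intro i
    rw [g3 _ (hpm i) _ (hpm _), abs_sub_comm, abs_of_nonneg (hp1 i).1]
  have hp0 : p 0 = 0 := by simp [hp]
  have hpN : p ⌈dist x y⌉₊ = dist x y := min_eq_right (Nat.le_ceil _)
  refine ⟨_, ?_, ⌈dist x y⌉₊, fun i => γ (p i), by simp only [hp0, g1], by simp only [hpN, g2],
    fun i _ => by rw [hd]; exact (hp1 i).2, rfl⟩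
  unfold cost
  calc _ ≤ ∑ i ∈ Finset.range ⌈dist x y⌉₊, K * (p (i + 1) - p i) := by
        refine Finset.sum_le_sum fun i _ => ?_
        rw [hd]
        exact mul_le_mul_of_nonneg_right (wt_le hK _ _) (hp1 i).1
    _ = K * dist x y := by
        rw [← Finset.mul_sum, Finset.sum_range_sub, hpN, hp0, sub_zero]

theorem cost_mono {c : X} {R K : ℝ} (hK : 1 ≤ K) (z : ℕ → X) {i j : ℕ} (hij : i ≤ j) :
    len z j - len z i ≤ cost c R K z j - cost c R K z i := by
  obtain ⟨k, rfl⟩ := Nat.exists_eq_add_of_le hij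
  unfold len cost
  rw [Finset.sum_range_add, Finset.sum_range_add, add_sub_cancel_left, add_sub_cancel_left]
  refine Finset.sum_le_sum fun l _ => ?_
  exact le_mul_of_one_le_left dist_nonneg (one_le_wt hK _ _)

theorem dist_le_len (z : ℕ → X) {i j : ℕ} (hij : i ≤ j) : dist (z i) (z j) ≤ len z j - len z i := by
  obtain ⟨k, rfl⟩ := Nat.exists_eq_add_of_le hij
  unfold len
  rw [Finset.sum_range_add, add_sub_cancel_left]
  induction k with
  | zero => simp
  | succ k ih =>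
    rw [Finset.sum_range_succ]
    have := dist_triangle (z i) (z (i + k)) (z (i + k + 1))
    have h1 := ih (by omega)
    simp only [add_assoc] at *
    linarith

theorem len_mono (z : ℕ → X) {i j : ℕ} (hij : i ≤ j) : len z i ≤ len z j := by
  have := dist_le_len z hij
  have h2 : 0 ≤ dist (z i) (z j) := dist_nonneg
  linarith

/-- A chain which enters the ball is expensive. -/
theorem pot_le_cost {c : X} {R K : ℝ} (hK : 1 ≤ K) (z : ℕ → X) {i j : ℕ} (hij : i ≤ j) :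
    K * |max 0 (R - dist (z j) c) - max 0 (R - dist (z i) c)| ≤
      cost c R K z j - cost c R K z i := by
  obtain ⟨k, rfl⟩ := Nat.exists_eq_add_of_le hij
  unfold cost
  rw [Finset.sum_range_add, add_sub_cancel_left]
  have hstep : ∀ x y : X, K * |max 0 (R - dist y c) - max 0 (R - dist x c)| ≤
      wt c R K x y * dist x y := by
    intro x y
    unfold wt
    split_ifs with h
    · refine mul_le_mul_of_nonneg_left ?_ (by linarith)
      have e1 := abs_max_sub_max_le_abs (R - dist y c) (R - dist x c) 0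
      rw [max_comm _ (0 : ℝ), max_comm _ (0 : ℝ)] at e1
      refine e1.trans ?_
      rw [sub_sub_sub_cancel_left]
      exact abs_dist_sub_le x y c
    · push Not at h
      rw [max_eq_left (by linarith [h.1]), max_eq_left (by linarith [h.2]), sub_zero, abs_zero,
        mul_zero]
      positivity
  induction k with
  | zero => simp
  | succ k ih =>
    rw [Finset.sum_range_succ]
    have h1 := ih (by omega)
    have h2 := hstep (z (i + k)) (z (i + k + 1))
    have h3 := abs_sub_le (max 0 (R - dist (z (i + k + 1)) c)) (max 0 (R - dist (z (i + k)) c))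
      (max 0 (R - dist (z i) c))
    have h4 := mul_le_mul_of_nonneg_left h3 (by linarith : 0 ≤ K)
    simp only [add_assoc] at *
    linarith

/-- A chain which almost minimises the cost. -/
theorem near_min (hX : GeodesicSpace X) {c : X} {R K : ℝ} (hK : 1 ≤ K) {x y : X} {a₀ : ℝ}
    (h : Ch c R K x y a₀) : ∃ (N : ℕ) (z : ℕ → X), z 0 = x ∧ z N = y ∧
      (∀ i < N, dist (z i) (z (i + 1)) ≤ 1) ∧ cost c R K z N ≤ a₀ + 1 ∧
      ∀ i j, i ≤ j → j ≤ N → cost c R K z j - cost c R K z i ≤ K * dist (z i) (z j) + 1 := by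
  have hnn : ∀ a, Ch c R K x y a → 0 ≤ a := by
    rintro a ⟨N, z, -, -, -, rfl⟩
    refine Finset.sum_nonneg fun i _ => mul_nonneg ?_ dist_nonneg
    have := one_le_wt (c := c) (R := R) hK (z i) (z (i + 1))
    linarith
  have hbdd : BddBelow {a | Ch c R K x y a} := ⟨0, fun a ha => hnn a ha⟩
  have hne : {a | Ch c R K x y a}.Nonempty := ⟨a₀, h⟩
  obtain ⟨a, ha, hlt⟩ := exists_lt_of_csInf_lt hne (lt_add_one (sInf {a | Ch c R K x y a}))
  have hle : sInf {a | Ch c R K x y a} ≤ a₀ := csInf_le hbdd h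
  obtain ⟨N, z, h1, h2, h3, h4⟩ := ha
  refine ⟨N, z, h1, h2, h3, by rw [h4]; linarith, fun i j hij hj => ?_⟩
  have e1 := Ch.sub (c := c) (R := R) (K := K) h3 (Nat.zero_le i) (hij.trans hj)
  have e2 := Ch.sub (c := c) (R := R) (K := K) h3 hj le_rfl
  obtain ⟨g, hg1, hg2⟩ := Ch.geo hX (c := c) (R := R) hK (z i) (z j)
  have e3 := (e1.trans hg2).trans e2
  rw [h1, h2] at e3
  have e4 := csInf_le hbdd e3
  have e5 : cost c R K z 0 = 0 := by simp [cost]
  rw [h4, e5] at e4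
  linarith

/-- The quasi-geodesic given by an almost minimising chain, parametrised by the length. -/
theorem quasi {c : X} {R K : ℝ} (hK : 1 ≤ K) {N : ℕ} {z : ℕ → X}
    (h3 : ∀ i < N, dist (z i) (z (i + 1)) ≤ 1)
    (h5 : ∀ i j, i ≤ j → j ≤ N → cost c R K z j - cost c R K z i ≤ K * dist (z i) (z j) + 1) :
    ∃ β : ℝ → X, IsQuasiGeodesic K 2 0 (len z N) β ∧ β 0 = z 0 ∧ β (len z N) = z N ∧
      ∀ k ≤ N, ∃ u ∈ Icc 0 (len z N), β u = z k := by
  classical
  have hl0 : len z 0 = 0 := by simp [len]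
  let k : ℝ → ℕ := fun u => Nat.findGreatest (fun k => len z k ≤ u) N
  have hkN : ∀ u, k u ≤ N := fun u => Nat.findGreatest_le N
  have hk1 : ∀ u, 0 ≤ u → len z (k u) ≤ u := fun u hu =>
    Nat.findGreatest_spec (P := fun k => len z k ≤ u) (Nat.zero_le N) (by rw [hl0]; exact hu)
  have hk2 : ∀ u, u ≤ len z N → u ≤ len z (k u) + 1 := by
    intro u hu
    rcases Nat.lt_or_ge (k u) N with h | h
    · have h6 : ¬ len z (k u + 1) ≤ u :=
        Nat.findGreatest_is_greatest (P := fun k => len z k ≤ u) (Nat.lt_succ_self _) h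
      push Not at h6
      have h7 : len z (k u + 1) ≤ len z (k u) + 1 := by
        unfold len
        rw [Finset.sum_range_succ]
        have := h3 (k u) h
        linarith
      linarith
    · have : k u = N := le_antisymm (hkN u) h
      rw [this]
      linarith
  have hkm : ∀ u v, u ≤ v → k u ≤ k v := fun u v huv =>
    Nat.findGreatest_mono (fun _ h => le_trans h huv) le_rfl
  have hv : ∀ i ≤ N, z (k (len z i)) = z i := by
    intro i hi
    have e1 : i ≤ k (len z i) := Nat.le_findGreatest (P := fun k => len z k ≤ len z i) hi le_rfl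
    have e2 := dist_le_len z e1
    have e3 := hk1 (len z i) (by rw [← hl0]; exact len_mono z (Nat.zero_le _))
    have e4 : dist (z i) (z (k (len z i))) = 0 := le_antisymm (by linarith) dist_nonneg
    exact (dist_eq_zero.1 e4).symm
  refine ⟨fun u => z (k u), ?_, by
    have := hv 0 (Nat.zero_le _)
    rw [hl0] at this
    exact this, hv N le_rfl, fun i hi => ⟨len z i, ⟨by rw [← hl0]; exact len_mono z (Nat.zero_le _),
      len_mono z hi⟩, hv i hi⟩⟩
  have key : ∀ u ∈ Icc 0 (len z N), ∀ v ∈ Icc 0 (len z N), u ≤ v →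
      (v - u) / K - 2 ≤ dist (z (k u)) (z (k v)) ∧
      dist (z (k u)) (z (k v)) ≤ K * (v - u) + 2 := by
    intro u hu v hv' huv
    have a1 := hk1 u hu.1
    have a2 := hk2 u hu.2
    have b1 := hk1 v hv'.1
    have b2 := hk2 v hv'.2
    have c1 := hkm u v huv
    have d1 := dist_le_len z c1
    have d2 := cost_mono (c := c) (R := R) hK z c1
    have d3 := h5 _ _ c1 (hkN v)
    have hK0 : 0 < K := by linarith
    constructor
    · have e1 : (v - u) / K ≤ dist (z (k u)) (z (k v)) + 2 := by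
        rw [div_le_iff₀ hK0]
        nlinarith
      linarith
    · nlinarith
  intro u hu v hv'
  rcases le_total u v with h | h
  · rw [abs_sub_comm, abs_of_nonneg (by linarith)]
    exact key u hu v hv' h
  · rw [abs_of_nonneg (by linarith), dist_comm]
    exact key v hv' u hu h

/-- A path gives a chain. -/
theorem chain_of_path {c : X} {R K C : ℝ} {x y : X} {γ : ℝ → X} (hγ : ContinuousOn γ (Icc 0 1))
    (h0 : γ 0 = x) (h1 : γ 1 = y) (hav : ∀ s ∈ Icc (0 : ℝ) 1, γ s ∉ ball c R)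
    (hlen : eVariationOn γ (Icc 0 1) < ENNReal.ofReal C) : ∃ a < C, Ch c R K x y a := by
  have huc := isCompact_Icc.uniformContinuousOn_of_continuous hγ
  rw [Metric.uniformContinuousOn_iff] at huc
  obtain ⟨ε, hε, hε2⟩ := huc 1 one_pos
  obtain ⟨N, hN⟩ := exists_nat_gt (1 / ε)
  have hN0 : 0 < (N : ℝ) := lt_trans (by positivity) hN
  set p : ℕ → ℝ := fun i => min ((i : ℝ) / N) 1 with hp
  have hpm : ∀ i, p i ∈ Icc (0 : ℝ) 1 := fun i => ⟨le_min (by positivity) zero_le_one,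
    min_le_right _ _⟩
  have hmono : Monotone p := by
    intro i j hij
    simp only [hp]
    have : (i : ℝ) ≤ j := by exact_mod_cast hij
    gcongr
  have hp0 : p 0 = 0 := by simp [hp]
  have hpN : p N = 1 := by simp [hp, hN0.ne']
  have hstep : ∀ i, dist (γ (p i)) (γ (p (i + 1))) ≤ 1 := by
    intro i
    refine (hε2 _ (hpm i) _ (hpm _) ?_).le
    rw [Real.dist_eq, abs_sub_comm, abs_of_nonneg (by linarith [hmono (Nat.le_succ i)])]
    have h3 : p (i + 1) - p i ≤ 1 / N := by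
      simp only [hp]
      push_cast
      have h4 : ((i : ℝ) + 1) / N = i / N + 1 / N := by ring
      have h5 : 0 < 1 / (N : ℝ) := by positivity
      rcases min_cases ((i : ℝ) / N) 1 with h6 | h6 <;>
        rcases min_cases (((i : ℝ) + 1) / N) 1 with h7 | h7 <;> rw [h6.1, h7.1] <;> linarith
    refine h3.trans_lt ?_
    rw [div_lt_iff₀ hN0]
    rw [div_lt_iff₀ hε] at hN
    linarith
  have hout : ∀ i, R ≤ dist (γ (p i)) c := fun i => by
    have := hav _ (hpm i)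
    rwa [mem_ball, not_lt] at this
  have hw : ∀ i, wt c R K (γ (p i)) (γ (p (i + 1))) = 1 := by
    intro i
    unfold wt
    rw [if_neg]
    push Not
    exact ⟨hout i, hout _⟩
  refine ⟨cost c R K (fun i => γ (p i)) N, ?_, N, fun i => γ (p i), by simp only [hp0, h0],
    by simp only [hpN, h1], fun i _ => hstep i, rfl⟩
  have e1 := eVariationOn.sum_le (f := γ) (s := Icc 0 1) (n := N) hmono hpm
  have e2 : ∑ i ∈ Finset.range N, edist (γ (p (i + 1))) (γ (p i)) =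
      ENNReal.ofReal (cost c R K (fun i => γ (p i)) N) := by
    unfold cost
    rw [ENNReal.ofReal_sum_of_nonneg]
    · refine Finset.sum_congr rfl fun i _ => ?_
      rw [hw, one_mul, edist_dist, dist_comm]
    · intro i _
      rw [hw, one_mul]
      exact dist_nonneg
  rw [e2] at e1
  exact (ENNReal.ofReal_lt_ofReal_iff_of_nonneg (Finset.sum_nonneg fun i _ => by
    rw [hw, one_mul]; exact dist_nonneg)).1 (e1.trans_lt hlen)

/-- Paths which avoid a large ball are long if the ray is `κ`-Morse. -/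
theorem morse_long (hX : GeodesicSpace X) {κ : ℝ → ℝ} {b : ℝ → X} (hb : IsRay b)
    (hκ : ∀ t, 0 ≤ t → 1 ≤ κ t) {A : ℝ} (hA : 1 ≤ A) (hD : Doubling κ A) (h : KappaMorse κ b)
    (C : ℝ) (hC : 0 ≤ C) : ∃ r₀ : ℝ, 1 ≤ r₀ ∧ ∀ r, r₀ ≤ r → ∀ t, 0 ≤ t → r * κ t < t →
      ∀ γ : ℝ → X, ContinuousOn γ (Icc 0 1) → γ 0 = b (t - r * κ t) → γ 1 = b (t + r * κ t) →
      (∀ s ∈ Icc (0 : ℝ) 1, γ s ∉ ball (b t) (r * κ t)) →
      ENNReal.ofReal (C * (r * κ t)) ≤ eVariationOn γ (Icc 0 1) := by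
  obtain ⟨m, hm⟩ := h
  obtain ⟨hm0, hm1⟩ := hm (C + 1) 2 (by linarith) (by norm_num)
  obtain ⟨D, hDd⟩ : ∃ D : ℝ, D = m (C + 1) 2 * (A * (1 + C)) := ⟨_, rfl⟩
  have hD0 : 0 ≤ D := by rw [hDd]; positivity
  refine ⟨6 * D + 8, by linarith, fun r hr t ht hrt γ g1 g2 g3 g4 => ?_⟩
  by_contra hlt
  push Not at hlt
  have hκt : 1 ≤ κ t := hκ t ht
  obtain ⟨R, hR⟩ : ∃ R : ℝ, R = r * κ t := ⟨_, rfl⟩
  rw [← hR] at hrt g2 g3 g4 hlt
  have hR8 : 6 * (D * κ t) + 8 ≤ R := by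
    rw [hR]
    nlinarith
  have hDκ : 0 ≤ D * κ t := by positivity
  have hK : 1 ≤ C + 1 := by linarith
  obtain ⟨a₀, ha₀, hch⟩ := chain_of_path (K := C + 1) g1 g2 g3 g4 hlt
  obtain ⟨N, z, z1, z2, z3, z4, z5⟩ := near_min hX hK hch
  -- the chain avoids the small ball
  have hfar : ∀ k ≤ N, R / 2 ≤ dist (z k) (b t) := by
    intro k hk
    by_contra hlt2
    push Not at hlt2
    have e1 := pot_le_cost (c := b t) (R := R) hK z (Nat.zero_le k)
    have e2 := pot_le_cost (c := b t) (R := R) hK z hk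
    have d1 : dist (z 0) (b t) = R := by
      rw [z1, hb _ (by linarith) _ ht, sub_sub_cancel_left, abs_neg, abs_of_nonneg (by linarith)]
    have d2 : dist (z N) (b t) = R := by
      rw [z2, hb _ (by linarith) _ ht, add_sub_cancel_left, abs_of_nonneg (by linarith)]
    have c0 : cost (b t) R (C + 1) z 0 = 0 := by simp [cost]
    rw [d1, sub_self, max_self, sub_zero, abs_of_nonneg (le_max_left _ _), c0] at e1
    rw [d2, sub_self, max_self, zero_sub, abs_neg, abs_of_nonneg (le_max_left _ _)] at e2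
    have e3 : R / 2 ≤ max 0 (R - dist (z k) (b t)) := le_max_of_le_right (by linarith)
    have e4 := mul_le_mul_of_nonneg_left e3 (by linarith : 0 ≤ C + 1)
    nlinarith
  obtain ⟨β, b1, b2, b3, b4⟩ := quasi hK z3 z5
  have hlen0 : len z 0 = 0 := by simp [len]
  have hlenN : len z N ≤ C * R + 1 := by
    have e1 := cost_mono (c := b t) (R := R) hK z (Nat.zero_le N)
    have c0 : cost (b t) R (C + 1) z 0 = 0 := by simp [cost]
    rw [hlen0, c0] at e1
    linarith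
  have hlen1 : 0 ≤ len z N := by
    rw [← hlen0]
    exact len_mono z (Nat.zero_le N)
  have hnb := hm1 0 (len z N) β hlen1 b1
    (by rw [b2, z1]; exact ⟨_, by rw [mem_Ici]; linarith, rfl⟩)
    (by rw [b3, z2]; exact ⟨_, by rw [mem_Ici]; linarith, rfl⟩)
  have hnear : ∀ k ≤ N, infDist (z k) (b '' Ici 0) ≤ D * κ t := by
    intro k hk
    obtain ⟨u, hu, hue⟩ := b4 k hk
    have e1 := hnb u hu
    rw [hue] at e1
    have e2 : dist (b 0) (z k) ≤ (1 + C) * t := by
      have f1 := dist_triangle (b 0) (z 0) (z k)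
      have f2 := dist_le_len z (Nat.zero_le k)
      have f3 := len_mono z hk
      have f4 : dist (b 0) (z 0) = t - R := by
        rw [z1, hb _ le_rfl _ (by linarith), zero_sub, abs_neg, abs_of_nonneg (by linarith)]
      have f5 : C * R ≤ C * t := mul_le_mul_of_nonneg_left hrt.le hC
      linarith
    have e3 := hD t (dist (b 0) (z k)) (1 + C) ht dist_nonneg (by linarith) e2
    calc _ ≤ m (C + 1) 2 * κ (dist (b 0) (z k)) := e1
      _ ≤ m (C + 1) 2 * (A * (1 + C) * κ t) := mul_le_mul_of_nonneg_left e3 hm0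
      _ = D * κ t := by rw [hDd]; ring
  -- projections
  have hpr : ∀ k, ∃ u : ℝ, 0 ≤ u ∧ (k ≤ N → dist (z k) (b u) < D * κ t + 1) := by
    intro k
    by_cases hk : k ≤ N
    · have e1 : infDist (z k) (b '' Ici 0) < D * κ t + 1 := by
        have := hnear k hk
        linarith
      have hne : (b '' Ici 0).Nonempty := ⟨b 0, 0, by simp, rfl⟩
      obtain ⟨_, ⟨u, hu, rfl⟩, hu2⟩ := (infDist_lt_iff hne).1 e1
      exact ⟨u, hu, fun _ => hu2⟩
    · exact ⟨0, le_rfl, fun h => absurd h hk⟩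
  choose u hu0 hu1 using hpr
  have hstep : ∀ k, k < N → |u k - u (k + 1)| ≤ 2 * (D * κ t + 1) + 1 := by
    intro k hk
    rw [← hb _ (hu0 k) _ (hu0 (k + 1))]
    have f1 := dist_triangle (b (u k)) (z k) (b (u (k + 1)))
    have f2 := dist_triangle (z k) (z (k + 1)) (b (u (k + 1)))
    have f3 := hu1 k hk.le
    have f4 := hu1 (k + 1) hk
    have f5 := z3 k hk
    rw [dist_comm (b (u k)) (z k)] at f1
    linarith
  have hu00 : u 0 < t := by
    have f1 := hu1 0 (Nat.zero_le N)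
    rw [z1, hb _ (by linarith) _ (hu0 0)] at f1
    have := abs_lt.1 f1
    linarith [this.1]
  have huN : t ≤ u N := by
    have f1 := hu1 N le_rfl
    rw [z2, hb _ (by linarith) _ (hu0 N)] at f1
    have := abs_lt.1 f1
    linarith [this.2]
  classical
  have hex : ∃ k, t ≤ u k := ⟨N, huN⟩
  obtain ⟨k, hk⟩ : ∃ k, k = Nat.find hex := ⟨_, rfl⟩
  have hk1 : t ≤ u k := by rw [hk]; exact Nat.find_spec hex
  have hkN : k ≤ N := by rw [hk]; exact Nat.find_min' hex huN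
  have hk0 : k ≠ 0 := by
    intro h
    rw [h] at hk1
    linarith
  obtain ⟨l, rfl⟩ := Nat.exists_eq_succ_of_ne_zero hk0
  have hl : u l < t := by
    have := Nat.find_min hex (m := l) (by rw [← hk]; exact Nat.lt_succ_self l)
    push Not at this
    exact this
  have f1 := hstep l hkN
  have f2 := hfar (l + 1) hkN
  have f3 := hu1 (l + 1) hkN
  have f4 : dist (b (u (l + 1))) (b t) = u (l + 1) - t := by
    rw [hb _ (hu0 _) _ ht, abs_of_nonneg (by
      have : t ≤ u (l + 1) := hk1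
      linarith)]
  have f5 := dist_triangle (z (l + 1)) (b (u (l + 1))) (b t)
  have f6 := (abs_le.1 f1).1
  linarith

theorem morse_superlinear (hX : GeodesicSpace X) {κ : ℝ → ℝ} {b : ℝ → X} (hb : IsRay b)
    (hκ : ∀ t, 0 ≤ t → 1 ≤ κ t) {A : ℝ} (hA : 1 ≤ A) (hD : Doubling κ A) (h : KappaMorse κ b) :
    Superlinear κ b := by
  unfold Superlinear
  rw [ENNReal.tendsto_nhds_top_iff_nnreal]
  intro C
  obtain ⟨r₀, hr₀, hr⟩ := morse_long hX hb hκ hA hD h (C + 1) (by positivity)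
  filter_upwards [eventually_ge_atTop r₀] with r hrr
  have hr0 : 0 < r := by linarith
  have h1 : ENNReal.ofReal ((C + 1) * r) ≤ lowerDiv κ b r := by
    refine le_iInf fun ⟨t, ht, hrt⟩ => ?_
    have hκt : 0 < κ t := by linarith [hκ t ht]
    rw [ENNReal.le_div_iff_mul_le (Or.inl (by simpa using hκt)) (Or.inl ENNReal.ofReal_ne_top),
      ← ENNReal.ofReal_mul (by positivity), mul_assoc]
    exact le_iInf fun ⟨γ, g1, g2, g3, g4⟩ => hr r hrr t ht hrt γ g1 g2 g3 g4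
  have h2 : ENNReal.ofReal (C + 1) ≤ lowerDiv κ b r / ENNReal.ofReal r := by
    rw [ENNReal.le_div_iff_mul_le (Or.inl (by simpa using hr0)) (Or.inl ENNReal.ofReal_ne_top),
      ← ENNReal.ofReal_mul (by positivity)]
    exact h1
  refine lt_of_lt_of_le ?_ h2
  rw [ENNReal.lt_ofReal_iff_toReal_lt ENNReal.coe_ne_top]
  simp

/-- Let `b` be a geodesic ray in a geodesic metric space `X` and let `κ : [0, ∞) → [1, ∞)` be a
sublinear function which, up to a bounded multiplicative factor, is monotone and concave. Then `b`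
is `κ`-Morse if and only if its `κ`-lower divergence is superlinear. -/
theorem result {X : Type*} [MetricSpace X] (hX : GeodesicSpace X) (κ : ℝ → ℝ)
    (hκ₁ : ∀ t, 0 ≤ t → 1 ≤ κ t) (hκ₂ : Tendsto (fun t => κ t / t) atTop (𝓝 0))
    (hκ₃ : ∃ (κ' : ℝ → ℝ) (C : ℝ), MonotoneOn κ' (Ici 0) ∧ ConcaveOn ℝ (Ici 0) κ' ∧
      ∀ t, 0 ≤ t → κ t ≤ κ' t ∧ κ' t ≤ C * κ t)
    (b : ℝ → X) (hb : IsRay b) : KappaMorse κ b ↔ Superlinear κ b := by
  obtain ⟨κ', C, hmono, hconc, hC⟩ := hκ₃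
  have hC1 : 1 ≤ C := by
    obtain ⟨h1, h2⟩ := hC 0 le_rfl
    have h3 := hκ₁ 0 le_rfl
    by_contra hlt
    push Not at hlt
    nlinarith
  have hD : Doubling κ C := by
    intro s s' l hs hs' hl hsl
    have hl0 : 0 < l := by linarith
    have h1 : κ s' ≤ κ' s' := (hC s' hs').1
    have h2 : κ' s' ≤ κ' (l * s) := hmono hs' (mul_nonneg hl0.le hs) hsl
    have h3 : κ' (l * s) ≤ l * κ' s := by
      have hconc2 := hconc.2
      have hls : l * s ∈ Ici (0 : ℝ) := mul_nonneg hl0.le hs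
      have h4 := hconc2 hls (mem_Ici.2 (le_refl (0 : ℝ))) (by positivity : 0 ≤ 1 / l)
        (by rw [sub_nonneg, div_le_one hl0]; exact hl : 0 ≤ 1 - 1 / l) (by ring)
      simp only [smul_eq_mul, mul_zero, add_zero] at h4
      have h5 : 1 / l * (l * s) = s := by field_simp
      rw [h5] at h4
      have h6 : 0 ≤ κ' 0 := by
        have := hκ₁ 0 le_rfl
        have := (hC 0 le_rfl).1
        linarith
      have h7 : 0 ≤ (1 - 1 / l) * κ' 0 := mul_nonneg
        (by rw [sub_nonneg, div_le_one hl0]; exact hl) h6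
      have h8 : 1 / l * κ' (l * s) ≤ κ' s := by linarith
      have h9 := mul_le_mul_of_nonneg_left h8 hl0.le
      rwa [← mul_assoc, mul_one_div_cancel hl0.ne', one_mul] at h9
    have h4 : κ' s ≤ C * κ s := (hC s hs).2
    calc κ s' ≤ l * κ' s := h1.trans (h2.trans h3)
      _ ≤ l * (C * κ s) := mul_le_mul_of_nonneg_left h4 hl0.le
      _ = C * l * κ s := by ring
  exact ⟨morse_superlinear hX hb hκ₁ hC1 hD, superlinear_morse hX hb hκ₁ hκ₂ hC1 hD⟩

end Pool.Agent.Results.MP_395cce_al.MorseIffSuperlinear
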